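import Pool.Agent.SFl.Glob
import Pool.Agent.TN.Lin

/-!
# Hamiltonian flows on the torus (row FL-5)
-/

set_option autoImplicit false
set_option linter.all false

open Set Pool.Agent.H68.VD
open scoped ContDiff

namespace SFl

noncomputable section

variable {n : ℕ}

/-! ### Linear algebra -/

theorem Symp_JJ (x : Eu (n + n)) : TN.Jm (TN.Jm x) = -x := by
  refine TN.ext_qp ?_ ?_ <;> simp [TN.Jm]

theorem Symp_det_adj {E : Type} [NormedAddCommGroup E] [InnerProductSpace ℝ E]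
    [FiniteDimensional ℝ E] (f : E →ₗ[ℝ] E) : LinearMap.det (LinearMap.adjoint f) = LinearMap.det f := by
  have b := stdOrthonormalBasis ℝ E
  rw [← LinearMap.det_toMatrix b.toBasis, ← LinearMap.det_toMatrix b.toBasis f,
    LinearMap.toMatrix_adjoint, Matrix.det_conjTranspose]
  simp

theorem Symp_det_sq {A : Eu (n + n) →L[ℝ] Eu (n + n)}
    (h : ∀ v w, TN.om (A v) (A w) = TN.om v w) : A.det * A.det = 1 := by
  set f : Eu (n + n) →ₗ[ℝ] Eu (n + n) := (A : Eu (n + n) →ₗ[ℝ] Eu (n + n)) with hf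
  set J : Eu (n + n) →ₗ[ℝ] Eu (n + n) := (TN.JL n : Eu (n + n) →ₗ[ℝ] Eu (n + n)) with hJ
  have h1 : (LinearMap.adjoint f) ∘ₗ J ∘ₗ f = J := by
    refine LinearMap.ext fun v => ?_
    refine ext_inner_right ℝ fun w => ?_
    have h2 : inner ℝ ((LinearMap.adjoint f) (J (f v))) w = inner ℝ (J (f v)) (f w) :=
      LinearMap.adjoint_inner_left f w (J (f v))
    have h3 : inner ℝ (J (f v)) (f w) = TN.om (A v) (A w) := (TN.om_J (A v) (A w)).symm
    have h4 : inner ℝ (J v) w = TN.om v w := (TN.om_J v w).symm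
    rw [LinearMap.comp_apply, LinearMap.comp_apply, h2, h3, h, h4]
  have hJJ : J ∘ₗ J = (-1 : ℝ) • (LinearMap.id : Eu (n + n) →ₗ[ℝ] Eu (n + n)) := by
    refine LinearMap.ext fun v => ?_
    have : J (J v) = -v := Symp_JJ v
    rw [LinearMap.comp_apply, this]
    simp
  have hJd : LinearMap.det J ≠ 0 := by
    intro h0
    have h2 := congrArg LinearMap.det hJJ
    rw [LinearMap.det_comp, h0, LinearMap.det_smul, LinearMap.det_id, mul_one, mul_zero] at h2
    exact pow_ne_zero _ (by norm_num) h2.symm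
  have h2 := congrArg LinearMap.det h1
  rw [LinearMap.det_comp, LinearMap.det_comp, Symp_det_adj] at h2
  have h3 : LinearMap.det J * (LinearMap.det f * LinearMap.det f) = LinearMap.det J * 1 := by
    rw [mul_one]
    calc LinearMap.det J * (LinearMap.det f * LinearMap.det f)
        = LinearMap.det f * (LinearMap.det J * LinearMap.det f) := by ring
      _ = LinearMap.det J := h2
  exact mul_left_cancel₀ hJd h3

/-! ### The field -/

/-- the vector which represents a linear form -/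
def Symp_gr (m : ℕ) : (Eu m →L[ℝ] ℝ) →L[ℝ] Eu m :=
  LinearMap.toContinuousLinearMap
    { toFun := fun L => (InnerProductSpace.toDual ℝ (Eu m)).symm L
      map_add' := fun L L' => map_add _ L L'
      map_smul' := fun c L => by simp }

theorem Symp_gr_inner {m : ℕ} (L : Eu m →L[ℝ] ℝ) (w : Eu m) :
    inner ℝ (Symp_gr m L) w = L w := by
  exact InnerProductSpace.toDual_symm_apply

/-- the Hamiltonian vector field -/
def Symp_u (H : ℝ → Eu (n + n) → ℝ) (z : ℝ × Eu (n + n)) : Eu (n + n) :=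
  -(TN.JL n (Symp_gr (n + n) (fderiv ℝ (H z.1) z.2)))

theorem Symp_J (H : ℝ → Eu (n + n) → ℝ) (z : ℝ × Eu (n + n)) :
    TN.Jm (Symp_u H z) = Symp_gr (n + n) (fderiv ℝ (H z.1) z.2) := by
  have h1 : TN.Jm (Symp_u H z) = TN.JL n (Symp_u H z) := rfl
  rw [h1]
  unfold Symp_u
  rw [map_neg, TN.JL_apply, TN.JL_apply, Symp_JJ, neg_neg]

theorem Symp_om (H : ℝ → Eu (n + n) → ℝ) (z : ℝ × Eu (n + n)) (w : Eu (n + n)) :
    TN.om (Symp_u H z) w = fderiv ℝ (H z.1) z.2 w := by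
  rw [TN.om_J, Symp_J, Symp_gr_inner]

theorem Symp_slice {F : Type} [NormedAddCommGroup F] [NormedSpace ℝ F] {m : ℕ}
    {f : ℝ → Eu m → F} (hf : ContDiff ℝ ∞ (fun z : ℝ × Eu m => f z.1 z.2)) (t : ℝ) :
    ContDiff ℝ ∞ (f t) :=
  hf.comp (contDiff_prodMk_right t)

theorem Symp_fderiv {F : Type} [NormedAddCommGroup F] [NormedSpace ℝ F] {m : ℕ}
    {f : ℝ → Eu m → F} (hf : ContDiff ℝ ∞ (fun z : ℝ × Eu m => f z.1 z.2)) (z : ℝ × Eu m) :
    fderiv ℝ (f z.1) z.2 = (fderiv ℝ (fun z : ℝ × Eu m => f z.1 z.2) z).comp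
      (ContinuousLinearMap.inr ℝ ℝ (Eu m)) := by
  have h1 : HasFDerivAt (fun z : ℝ × Eu m => f z.1 z.2)
      (fderiv ℝ (fun z : ℝ × Eu m => f z.1 z.2) (z.1, z.2)) (z.1, z.2) :=
    (hf.differentiable (by simp) _).hasFDerivAt
  have h2 := h1.comp z.2 (hasFDerivAt_prodMk_right z.1 z.2)
  exact h2.fderiv

theorem Symp_u_smooth {H : ℝ → Eu (n + n) → ℝ}
    (hH : ContDiff ℝ ∞ (fun z : ℝ × Eu (n + n) => H z.1 z.2)) : ContDiff ℝ ∞ (Symp_u H) := by
  have h1 : ContDiff ℝ ∞ (fun z : ℝ × Eu (n + n) => fderiv ℝ (H z.1) z.2) := by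
    have h2 : (fun z : ℝ × Eu (n + n) => fderiv ℝ (H z.1) z.2) = fun z =>
        (fderiv ℝ (fun z : ℝ × Eu (n + n) => H z.1 z.2) z).comp
          (ContinuousLinearMap.inr ℝ ℝ (Eu (n + n))) := funext fun z => Symp_fderiv hH z
    rw [h2]
    exact (hH.fderiv_right (m := ∞) (by simp)).clm_comp contDiff_const
  exact (((TN.JL n).contDiff.comp ((Symp_gr (n + n)).contDiff.comp h1))).neg

theorem Symp_u_per {H : ℝ → Eu (n + n) → ℝ} (hp : ∀ t, Per (H t)) (t : ℝ) (x : Eu (n + n))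
    (k : Fin (n + n) → ℤ) : Symp_u H (t, x + iv k) = Symp_u H (t, x) := by
  unfold Symp_u
  have h1 : fderiv ℝ (H t) (x + iv k) = fderiv ℝ (H t) x := by
    rw [← fderiv_comp_add_right]
    congr 1
    funext y
    exact hp t y k
  simp only [h1]

/-- the closed unit cube -/
def Symp_cc (m : ℕ) : Set (Eu m) := {x | ∀ i, x i ∈ Set.Icc (0 : ℝ) 1}

theorem Symp_cc_compact {m : ℕ} : IsCompact (Symp_cc m) := by
  have h1 : IsCompact (Set.pi Set.univ (fun _ : Fin m => Set.Icc (0 : ℝ) 1)) :=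
    isCompact_univ_pi (fun _ => isCompact_Icc)
  have h2 : Symp_cc m = (EuclideanSpace.equiv (Fin m) ℝ).symm ''
      (Set.pi Set.univ (fun _ : Fin m => Set.Icc (0 : ℝ) 1)) := by
    ext x
    constructor
    · intro hx
      exact ⟨EuclideanSpace.equiv (Fin m) ℝ x, fun i _ => hx i, by simp⟩
    · rintro ⟨y, hy, rfl⟩ i
      exact hy i (Set.mem_univ i)
  rw [h2]
  exact h1.image (EuclideanSpace.equiv (Fin m) ℝ).symm.continuous

theorem Symp_red {m : ℕ} (x : Eu m) :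
    ∃ (k : Fin m → ℤ) (y : Eu m), y ∈ Symp_cc m ∧ x = y + iv k := by
  refine ⟨fun i => ⌊x i⌋, x - iv (fun i => ⌊x i⌋), ?_, by simp⟩
  intro i
  have : (x - iv (fun i => ⌊x i⌋)) i = Int.fract (x i) := by
    simp only [iv, PiLp.sub_apply]
    exact Int.self_sub_floor (x i)
  rw [this]
  exact ⟨Int.fract_nonneg _, (Int.fract_lt_one _).le⟩

theorem Symp_u_bd {H : ℝ → Eu (n + n) → ℝ}
    (hH : ContDiff ℝ ∞ (fun z : ℝ × Eu (n + n) => H z.1 z.2)) (hp : ∀ t, Per (H t)) (T : ℝ) :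
    ∃ M : ℝ, ∀ t x, |t| ≤ T → ‖Symp_u H (t, x)‖ ≤ M := by
  obtain ⟨M, hM⟩ := ((isCompact_Icc (a := -T) (b := T)).prod
    (Symp_cc_compact (m := n + n))).exists_bound_of_continuousOn
      (Symp_u_smooth hH).continuous.continuousOn
  refine ⟨M, fun t x ht => ?_⟩
  obtain ⟨k, y, hy, rfl⟩ := Symp_red x
  rw [Symp_u_per hp]
  exact hM (t, y) ⟨abs_le.1 ht, hy⟩

/-! ### The flow -/

theorem Symp_two : minSmoothness ℝ 2 ≤ (∞ : WithTop ℕ∞) := by
  rw [minSmoothness_of_isRCLikeNormedField]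
  have h : ((2 : ℕ∞) : WithTop ℕ∞) ≤ ((⊤ : ℕ∞) : WithTop ℕ∞) := WithTop.coe_le_coe.2 le_top
  exact h

theorem Symp_om_du {H : ℝ → Eu (n + n) → ℝ}
    (hH : ContDiff ℝ ∞ (fun z : ℝ × Eu (n + n) => H z.1 z.2)) (t : ℝ) (y a b : Eu (n + n)) :
    TN.om (fderiv ℝ (fun y => Symp_u H (t, y)) y a) b = fderiv ℝ (fderiv ℝ (H t)) y a b := by
  have hs : ContDiff ℝ ∞ (fun y => Symp_u H (t, y)) :=
    (Symp_u_smooth hH).comp (contDiff_prodMk_right t)
  have h1 : HasFDerivAt (fun y => ((innerSL ℝ b).comp (TN.JL n)) (Symp_u H (t, y)))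
      (((innerSL ℝ b).comp (TN.JL n)).comp (fderiv ℝ (fun y => Symp_u H (t, y)) y)) y :=
    ((innerSL ℝ b).comp (TN.JL n)).hasFDerivAt.comp y
      (hs.differentiable (by simp) y).hasFDerivAt
  have h2 : HasFDerivAt (fderiv ℝ (H t)) (fderiv ℝ (fderiv ℝ (H t)) y) y := by
    have : ContDiff ℝ ∞ (fderiv ℝ (H t)) := (Symp_slice hH t).fderiv_right (by simp)
    exact (this.differentiable (by simp) y).hasFDerivAt
  have h3 : HasFDerivAt (fun y => fderiv ℝ (H t) y b)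
      ((ContinuousLinearMap.apply ℝ ℝ b).comp (fderiv ℝ (fderiv ℝ (H t)) y)) y :=
    (ContinuousLinearMap.apply ℝ ℝ b).hasFDerivAt.comp y h2
  have h4 : (fun y => ((innerSL ℝ b).comp (TN.JL n)) (Symp_u H (t, y))) =
      fun y => fderiv ℝ (H t) y b := by
    funext y
    rw [← Symp_om H (t, y) b, TN.om_J]
    exact real_inner_comm (TN.Jm (Symp_u H (t, y))) b
  rw [h4] at h1
  have h5 := congrArg (fun L => L a) (h1.unique h3)
  have h6 : TN.om (fderiv ℝ (fun y => Symp_u H (t, y)) y a) b =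
      inner ℝ b (TN.JL n (fderiv ℝ (fun y => Symp_u H (t, y)) y a)) := by
    rw [TN.om_J]
    exact real_inner_comm b (TN.Jm (fderiv ℝ (fun y => Symp_u H (t, y)) y a))
  rw [h6]
  exact h5

theorem Symp_dt {u : ℝ × Eu (n + n) → Eu (n + n)} (hu : ContDiff ℝ ∞ u)
    {φ : ℝ → Eu (n + n) → Eu (n + n)} (hφ : IsFlow u φ)
    (hs : ContDiff ℝ ∞ (fun z : ℝ × Eu (n + n) => φ z.1 z.2)) (t : ℝ) (x v : Eu (n + n)) :
    HasDerivAt (fun τ => fderiv ℝ (φ τ) x v)
      (fderiv ℝ (fun y => u (t, y)) (φ t x) (fderiv ℝ (φ t) x v)) t := by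
  set F : ℝ × Eu (n + n) → Eu (n + n) := fun z => φ z.1 z.2 with hF
  have hF1 : ContDiff ℝ ∞ (fderiv ℝ F) := hs.fderiv_right (by simp)
  have h1 : HasFDerivAt (fderiv ℝ F) (fderiv ℝ (fderiv ℝ F) (t, x)) (t, x) :=
    (hF1.differentiable (by simp) _).hasFDerivAt
  -- derivative in time
  have h2 : HasDerivAt (fun τ : ℝ => (τ, x)) ((1 : ℝ), (0 : Eu (n + n))) t :=
    (hasDerivAt_id t).prodMk (hasDerivAt_const t x)
  have h3 : HasDerivAt (fun τ => fderiv ℝ F (τ, x)) (fderiv ℝ (fderiv ℝ F) (t, x) (1, 0)) t :=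
    h1.comp_hasDerivAt t h2
  have h4 : HasDerivAt (fun τ => fderiv ℝ F (τ, x) ((0 : ℝ), v))
      (fderiv ℝ (fderiv ℝ F) (t, x) (1, 0) ((0 : ℝ), v)) t := by
    have := ((ContinuousLinearMap.apply ℝ (Eu (n + n)) ((0 : ℝ), v)).hasFDerivAt).comp_hasDerivAt t h3
    exact this
  have h5 : (fun τ => fderiv ℝ F (τ, x) ((0 : ℝ), v)) = fun τ => fderiv ℝ (φ τ) x v := by
    funext τ
    rw [Symp_fderiv hs (τ, x)]
    rfl
  rw [h5] at h4
  -- symmetry
  have h6 : fderiv ℝ (fderiv ℝ F) (t, x) (1, 0) ((0 : ℝ), v) =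
      fderiv ℝ (fderiv ℝ F) (t, x) ((0 : ℝ), v) (1, 0) :=
    (hs.contDiffAt (x := (t, x))).isSymmSndFDerivAt Symp_two (1, 0) ((0 : ℝ), v)
  -- derivative in space
  have h7 : HasFDerivAt (fun y : Eu (n + n) => fderiv ℝ F (t, y) ((1 : ℝ), (0 : Eu (n + n))))
      ((ContinuousLinearMap.apply ℝ (Eu (n + n)) ((1 : ℝ), (0 : Eu (n + n)))).comp
        ((fderiv ℝ (fderiv ℝ F) (t, x)).comp (ContinuousLinearMap.inr ℝ ℝ (Eu (n + n))))) x :=
    (ContinuousLinearMap.apply ℝ (Eu (n + n)) ((1 : ℝ), (0 : Eu (n + n)))).hasFDerivAt.comp x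
      (h1.comp x (hasFDerivAt_prodMk_right t x))
  have h8 : (fun y : Eu (n + n) => fderiv ℝ F (t, y) ((1 : ℝ), (0 : Eu (n + n)))) =
      fun y => u (t, φ t y) := by
    funext y
    have h9 : HasFDerivAt F (fderiv ℝ F (t, y)) (t, y) :=
      (hs.differentiable (by simp) _).hasFDerivAt
    have h10 : HasDerivAt (fun τ : ℝ => (τ, y)) ((1 : ℝ), (0 : Eu (n + n))) t :=
      (hasDerivAt_id t).prodMk (hasDerivAt_const t y)
    have h11 := h9.comp_hasDerivAt t h10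
    exact h11.unique (hφ.deriv t y)
  rw [h8] at h7
  have hus : ContDiff ℝ ∞ (fun y => u (t, y)) := hu.comp (contDiff_prodMk_right t)
  have h12 : HasFDerivAt (fun y => u (t, φ t y))
      ((fderiv ℝ (fun y => u (t, y)) (φ t x)).comp (fderiv ℝ (φ t) x)) x := by
    have h13 : HasFDerivAt (fun y => u (t, y)) (fderiv ℝ (fun y => u (t, y)) (φ t x)) (φ t x) :=
      (hus.differentiable (by simp) _).hasFDerivAt
    have h14 : HasFDerivAt (φ t) (fderiv ℝ (φ t) x) x :=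
      ((Symp_slice hs t).differentiable (by simp) _).hasFDerivAt
    exact h13.comp x h14
  have h15 := congrArg (fun L => L v) (h7.unique h12)
  have h16 : fderiv ℝ (fderiv ℝ F) (t, x) ((0 : ℝ), v) (1, 0) =
      fderiv ℝ (fun y => u (t, y)) (φ t x) (fderiv ℝ (φ t) x v) := h15
  rw [h6, h16] at h4
  exact h4

theorem Symp_symp {H : ℝ → Eu (n + n) → ℝ}
    (hH : ContDiff ℝ ∞ (fun z : ℝ × Eu (n + n) => H z.1 z.2))
    {φ : ℝ → Eu (n + n) → Eu (n + n)} (hφ : IsFlow (Symp_u H) φ)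
    (hs : ContDiff ℝ ∞ (fun z : ℝ × Eu (n + n) => φ z.1 z.2)) (t : ℝ) (x v w : Eu (n + n)) :
    TN.om (fderiv ℝ (φ t) x v) (fderiv ℝ (φ t) x w) = TN.om v w := by
  have hd : ∀ τ, HasDerivAt (fun τ => TN.om (fderiv ℝ (φ τ) x v) (fderiv ℝ (φ τ) x w)) 0 τ := by
    intro τ
    have h1 := Symp_dt (Symp_u_smooth hH) hφ hs τ x v
    have h2 := Symp_dt (Symp_u_smooth hH) hφ hs τ x w
    have h3 : HasDerivAt (fun τ => TN.JL n (fderiv ℝ (φ τ) x v))
        (TN.JL n (fderiv ℝ (fun y => Symp_u H (τ, y)) (φ τ x) (fderiv ℝ (φ τ) x v))) τ :=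
      (TN.JL n).hasFDerivAt.comp_hasDerivAt τ h1
    have h4 := h3.inner ℝ h2
    have h5 : (fun τ => TN.om (fderiv ℝ (φ τ) x v) (fderiv ℝ (φ τ) x w)) =
        fun τ => inner ℝ (TN.JL n (fderiv ℝ (φ τ) x v)) (fderiv ℝ (φ τ) x w) := by
      funext τ
      exact TN.om_J _ _
    rw [h5]
    set a := fderiv ℝ (φ τ) x v with ha
    set b := fderiv ℝ (φ τ) x w with hb
    set D := fderiv ℝ (fun y => Symp_u H (τ, y)) (φ τ x) with hD
    have h6 : inner ℝ (TN.JL n a) (D b) = -(fderiv ℝ (fderiv ℝ (H τ)) (φ τ x) b a) := by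
      rw [← Symp_om_du hH τ (φ τ x) b a]
      have : inner ℝ (TN.JL n a) (D b) = TN.om a (D b) := (TN.om_J _ _).symm
      rw [this, TN.om_swap]
    have h7 : inner ℝ (TN.JL n (D a)) b = fderiv ℝ (fderiv ℝ (H τ)) (φ τ x) a b := by
      rw [← Symp_om_du hH τ (φ τ x) a b]
      exact (TN.om_J _ _).symm
    have h8 : fderiv ℝ (fderiv ℝ (H τ)) (φ τ x) a b = fderiv ℝ (fderiv ℝ (H τ)) (φ τ x) b a :=
      ((Symp_slice hH τ).contDiffAt).isSymmSndFDerivAt Symp_two a b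
    rw [h6, h7, h8, neg_add_cancel] at h4
    exact h4
  have h1 := is_const_of_deriv_eq_zero (fun τ => (hd τ).differentiableAt) (fun τ => (hd τ).deriv) t 0
  have h0 : φ 0 = id := funext fun y => hφ.zero y
  have h2 : fderiv ℝ (φ 0) x = ContinuousLinearMap.id ℝ (Eu (n + n)) := by
    rw [h0]; exact fderiv_id
  rw [h1, h2]
  rfl

theorem Symp_det {H : ℝ → Eu (n + n) → ℝ}
    (hH : ContDiff ℝ ∞ (fun z : ℝ × Eu (n + n) => H z.1 z.2))
    {φ : ℝ → Eu (n + n) → Eu (n + n)} (hφ : IsFlow (Symp_u H) φ)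
    (hs : ContDiff ℝ ∞ (fun z : ℝ × Eu (n + n) => φ z.1 z.2)) (t : ℝ) (x : Eu (n + n)) :
    (fderiv ℝ (φ t) x).det = 1 := by
  have hc : Continuous (fun τ => (fderiv ℝ (φ τ) x).det) := by
    have h1 : Continuous (fun τ => fderiv ℝ (φ τ) x) := by
      have h2 : (fun τ => fderiv ℝ (φ τ) x) = fun τ =>
          (fderiv ℝ (fun z : ℝ × Eu (n + n) => φ z.1 z.2) (τ, x)).comp
            (ContinuousLinearMap.inr ℝ ℝ (Eu (n + n))) := funext fun τ => Symp_fderiv hs (τ, x)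
      rw [h2]
      have h3 : Continuous (fderiv ℝ (fun z : ℝ × Eu (n + n) => φ z.1 z.2)) :=
        (hs.fderiv_right (m := ∞) (by simp)).continuous
      exact (h3.comp (by fun_prop)).clm_comp continuous_const
    exact ContinuousLinearMap.continuous_det.comp h1
  have hsq : ∀ τ, (fderiv ℝ (φ τ) x).det * (fderiv ℝ (φ τ) x).det = 1 := fun τ =>
    Symp_det_sq fun v w => Symp_symp hH hφ hs τ x v w
  have h0 : (fderiv ℝ (φ 0) x).det = 1 := by
    have h0 : φ 0 = id := funext fun y => hφ.zero y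
    have h2 : fderiv ℝ (φ 0) x = ContinuousLinearMap.id ℝ (Eu (n + n)) := by
      rw [h0]; exact fderiv_id
    rw [h2]
    exact LinearMap.det_id
  by_contra hne
  have hm : (fderiv ℝ (φ t) x).det = -1 := by
    have h1 := hsq t
    have h2 : ((fderiv ℝ (φ t) x).det - 1) * ((fderiv ℝ (φ t) x).det + 1) = 0 := by
      ring_nf
      nlinarith
    rcases mul_eq_zero.1 h2 with h3 | h3
    · exact absurd (sub_eq_zero.1 h3) hne
    · linarith
  have hz : (0 : ℝ) ∈ Set.range (fun τ => (fderiv ℝ (φ τ) x).det) := by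
    refine mem_range_of_exists_le_of_exists_ge hc ⟨t, ?_⟩ ⟨0, ?_⟩
    · show (fderiv ℝ (φ t) x).det ≤ 0
      rw [hm]; norm_num
    · show 0 ≤ (fderiv ℝ (φ 0) x).det
      rw [h0]; norm_num
  obtain ⟨τ, hτ⟩ := hz
  have h1 := hsq τ
  have h2 : (fderiv ℝ (φ τ) x).det = 0 := hτ
  rw [h2] at h1
  norm_num at h1

theorem exists_ham_flow {n : ℕ} {H : ℝ → Eu (n + n) → ℝ}
    (hH : ContDiff ℝ ∞ (fun z : ℝ × Eu (n + n) => H z.1 z.2)) (hp : ∀ t, Per (H t)) :
    ∃ φ : ℝ → Eu (n + n) → Eu (n + n), TN.SPath φ ∧ φ 0 = id ∧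
      ∀ t x, HasFDerivAt (H t) (innerSL ℝ (TN.Jm (vel φ t x))) x := by
  have hus := Symp_u_smooth hH
  have hub := Symp_u_bd hH hp
  obtain ⟨φ, hφ, hs⟩ := exists_smooth hus hub
  have hbij : ∀ t, Function.Bijective (φ t) := fun t => flow_bij hus hub hφ t
  have hequi : ∀ t (k : Fin (n + n) → ℤ) x, φ t (x + iv k) = φ t x + iv k := by
    intro t k x
    have h1 := flow_unique (T := |t| + 1) hus (γ := fun τ => φ τ (x + iv k))
      (γ' := fun τ => φ τ x + iv k) (by rw [hφ.zero, hφ.zero])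
      (fun τ _ => hφ.deriv τ (x + iv k)) (fun τ _ => by
        rw [Symp_u_per hp]
        exact (hφ.deriv τ x).add_const _) t ⟨by
          have := neg_abs_le t
          linarith, by
          have := le_abs_self t
          linarith⟩
    exact h1
  refine ⟨φ, ⟨⟨hs, hbij, fun t x => Symp_det hH hφ hs t x, ?_⟩,
    fun t x v w => Symp_symp hH hφ hs t x v w⟩, funext fun y => hφ.zero y, ?_⟩
  · rintro t g ⟨k, rfl⟩ x
    exact hequi t k x
  · intro t x
    have hv : vel φ t x = Symp_u H (t, x) := by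
      unfold vel
      have h1 := (hφ.deriv t (Function.invFun (φ t) x)).deriv
      rw [h1, Function.rightInverse_invFun (hbij t).2 x]
    rw [hv, Symp_J]
    have h2 : innerSL ℝ (Symp_gr (n + n) (fderiv ℝ (H t) x)) = fderiv ℝ (H t) x := by
      ext w
      exact Symp_gr_inner _ _
    show HasFDerivAt (H t) (innerSL ℝ (Symp_gr (n + n) (fderiv ℝ (H t) x))) x
    rw [h2]
    exact ((Symp_slice hH t).differentiable (by simp) x).hasFDerivAt

end

end SFl
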