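import Pool.Agent.SFl.Defs

/-!
# Smooth flows: the derivative of the flow (FL-2)
-/

set_option autoImplicit false

open Set Metric Filter Asymptotics
open scoped ContDiff Topology NNReal

namespace SFl

variable {E : Type} [NormedAddCommGroup E] [NormedSpace ℝ E]

/-- Gronwall in both time directions. -/
private theorem c1_gron {F : Type} [NormedAddCommGroup F] [NormedSpace ℝ F] {f f' : ℝ → F}
    {K ε T : ℝ} (hK : 1 ≤ K) (hε : 0 ≤ ε) (hf : ∀ τ ∈ Ioo (-T) T, HasDerivAt f (f' τ) τ)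
    (hb : ∀ τ ∈ Ioo (-T) T, ‖f' τ‖ ≤ K * ‖f τ‖ + ε) {t : ℝ} (ht : t ∈ Ioo (-T) T) :
    ‖f t‖ ≤ (‖f 0‖ + ε) * Real.exp (K * |t|) := by
  have key : ∀ (g g' : ℝ → F), (∀ τ ∈ Ioo (-T) T, HasDerivAt g (g' τ) τ) →
      (∀ τ ∈ Ioo (-T) T, ‖g' τ‖ ≤ K * ‖g τ‖ + ε) → ∀ s ∈ Ioo (-T) T, 0 ≤ s →
      ‖g s‖ ≤ (‖g 0‖ + ε) * Real.exp (K * s) := by
    intro g g' hg hgb s hs hs0
    have hsub : ∀ τ ∈ Icc 0 s, τ ∈ Ioo (-T) T := fun τ hτ =>
      ⟨by linarith [hτ.1, hs.1, hs.2], lt_of_le_of_lt hτ.2 hs.2⟩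
    have h1 := norm_le_gronwallBound_of_norm_deriv_right_le (f := g) (f' := g') (δ := ‖g 0‖)
      (K := K) (ε := ε) (a := 0) (b := s)
      (fun τ hτ => (hg τ (hsub τ hτ)).continuousAt.continuousWithinAt)
      (fun τ hτ => (hg τ (hsub τ (Ico_subset_Icc_self hτ))).hasDerivWithinAt) le_rfl
      (fun τ hτ => hgb τ (hsub τ (Ico_subset_Icc_self hτ))) s ⟨hs0, le_rfl⟩
    rw [sub_zero, gronwallBound_of_K_ne_0 (by linarith)] at h1
    simp only at h1
    have h2 : 1 ≤ Real.exp (K * s) := Real.one_le_exp (by positivity)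
    have h3 : ε / K * (Real.exp (K * s) - 1) ≤ ε * Real.exp (K * s) := by
      have h4 : ε / K ≤ ε := div_le_self hε hK
      have h5 : (0 : ℝ) ≤ ε / K := by positivity
      nlinarith
    nlinarith
  rcases le_total 0 t with h | h
  · rw [abs_of_nonneg h]
    exact key f f' hf hb t ht h
  · rw [abs_of_nonpos h]
    have h1 := key (fun τ => f (-τ)) (fun τ => -(f' (-τ))) (fun τ hτ => ?_) (fun τ hτ => ?_)
      (-t) ⟨by linarith [ht.2], by linarith [ht.1]⟩ (by linarith)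
    · simpa using h1
    · have h2 := hf (-τ) ⟨by linarith [hτ.2], by linarith [hτ.1]⟩
      have h3 := h2.scomp τ (hasDerivAt_neg τ)
      simpa [Function.comp_def] using h3
    · rw [norm_neg]
      exact hb (-τ) ⟨by linarith [hτ.2], by linarith [hτ.1]⟩

/-- the constants of the field -/
private theorem c1_const {u : ℝ × E → E} [FiniteDimensional ℝ E] (hu : ContDiff ℝ ∞ u)
    (hus : HasCompactSupport u) : ∃ K : ℝ, 1 ≤ K ∧ (∀ z z', ‖u z - u z'‖ ≤ K * ‖z - z'‖) ∧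
      (∀ z, ‖u z‖ ≤ K) ∧ (∀ t x, ‖fderiv ℝ (fun y => u (t, y)) x‖ ≤ K) ∧
      ∀ t x y, ‖u (t, y) - u (t, x) - fderiv ℝ (fun y => u (t, y)) x (y - x)‖ ≤
        K * ‖y - x‖ ^ 2 := by
  obtain ⟨C1, hC1⟩ := hu.lipschitzWith_of_hasCompactSupport hus (by simp)
  obtain ⟨M, hM⟩ := hu.continuous.bounded_above_of_compact_support hus
  have hd : ContDiff ℝ ∞ (fderiv ℝ u) := hu.fderiv_right (by simp)
  obtain ⟨C2, hC2⟩ := hd.lipschitzWith_of_hasCompactSupport (hus.fderiv ℝ) (by simp)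
  set K : ℝ := max 1 (max (C1 : ℝ) (max M C2)) with hK
  have hK1 : (1 : ℝ) ≤ K := le_max_left _ _
  have hKC1 : (C1 : ℝ) ≤ K := (le_max_left _ _).trans (le_max_right _ _)
  have hKM : M ≤ K := ((le_max_left _ _).trans (le_max_right _ _)).trans (le_max_right _ _)
  have hKC2 : (C2 : ℝ) ≤ K :=
    ((le_max_right _ _).trans (le_max_right _ _)).trans (le_max_right _ _)
  have hlip : ∀ z z', ‖u z - u z'‖ ≤ K * ‖z - z'‖ := fun z z' => by
    have h := hC1.norm_sub_le z z'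
    calc ‖u z - u z'‖ ≤ C1 * ‖z - z'‖ := h
      _ ≤ K * ‖z - z'‖ := by gcongr
  have hlipx : ∀ t (x y : E), ‖((t, x) : ℝ × E) - (t, y)‖ = ‖x - y‖ := by
    intro t x y
    rw [Prod.mk_sub_mk, sub_self, Prod.norm_mk, norm_zero, max_eq_right (norm_nonneg _)]
  have hder : ∀ t x, HasFDerivAt (fun y => u (t, y))
      ((fderiv ℝ u (t, x)).comp (ContinuousLinearMap.inr ℝ ℝ E)) x := by
    intro t x
    have h1 : HasFDerivAt (fun y : E => ((t, y) : ℝ × E)) (ContinuousLinearMap.inr ℝ ℝ E) x := by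
      have := (hasFDerivAt_const (𝕜 := ℝ) t x).prodMk (hasFDerivAt_id (𝕜 := ℝ) x)
      exact this
    have h2 : HasFDerivAt u (fderiv ℝ u (t, x)) (t, x) :=
      (hu.differentiable (by simp)).differentiableAt.hasFDerivAt
    exact h2.comp x h1
  have hcomp : ∀ t (x y : E), ‖(fderiv ℝ u (t, x)).comp (ContinuousLinearMap.inr ℝ ℝ E) -
      (fderiv ℝ u (t, y)).comp (ContinuousLinearMap.inr ℝ ℝ E)‖ ≤ K * ‖x - y‖ := by
    intro t x y
    rw [← ContinuousLinearMap.sub_comp]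
    have h1 := hC2.norm_sub_le ((t, x) : ℝ × E) (t, y)
    rw [hlipx] at h1
    calc ‖(fderiv ℝ u (t, x) - fderiv ℝ u (t, y)).comp (ContinuousLinearMap.inr ℝ ℝ E)‖
        ≤ ‖fderiv ℝ u (t, x) - fderiv ℝ u (t, y)‖ * ‖ContinuousLinearMap.inr ℝ ℝ E‖ :=
          ContinuousLinearMap.opNorm_comp_le _ _
      _ ≤ (C2 * ‖x - y‖) * 1 := by
          gcongr
          exact ContinuousLinearMap.norm_inr_le_one ℝ ℝ E
      _ ≤ K * ‖x - y‖ := by
          rw [mul_one]
          gcongr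
  refine ⟨K, hK1, hlip, fun z => (hM z).trans hKM, fun t x => ?_, fun t x y => ?_⟩
  · apply norm_fderiv_le_of_lip' ℝ (by linarith)
    filter_upwards with y
    have := hlip (t, y) (t, x)
    rwa [hlipx] at this
  · rw [(hder t x).fderiv]
    have h1 := Convex.norm_image_sub_le_of_norm_hasFDerivWithin_le' (𝕜 := ℝ)
      (f := fun y => u (t, y))
      (f' := fun z => (fderiv ℝ u (t, z)).comp (ContinuousLinearMap.inr ℝ ℝ E))
      (φ := (fderiv ℝ u (t, x)).comp (ContinuousLinearMap.inr ℝ ℝ E))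
      (C := K * ‖y - x‖) (s := closedBall x ‖y - x‖) (x := x) (y := y)
      (fun z _ => (hder t z).hasFDerivWithinAt) (fun z hz => ?_) (convex_closedBall _ _)
      (mem_closedBall_self (norm_nonneg _)) (by rw [mem_closedBall, dist_eq_norm])
    · calc _ ≤ K * ‖y - x‖ * ‖y - x‖ := h1
        _ = K * ‖y - x‖ ^ 2 := by ring
    · refine (hcomp t z x).trans ?_
      rw [mem_closedBall, dist_eq_norm] at hz
      gcongr

/-- Existence of the matrix solution `A` of the variational equation: differentiability of the flow. -/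
theorem flow_hasFDerivAt [FiniteDimensional ℝ E] {u : ℝ × E → E} (hu : ContDiff ℝ ∞ u)
    (hus : HasCompactSupport u)
    {φ : ℝ → E → E} (hφ : IsFlow u φ) {T : ℝ} {A : ℝ → E → E →L[ℝ] E}
    (hA0 : ∀ x, A 0 x = ContinuousLinearMap.id ℝ E)
    (hA : ∀ t ∈ Ioo (-T) T, ∀ x, HasDerivAt (fun τ => A τ x)
      ((fderiv ℝ (fun y => u (t, y)) (φ t x)).comp (A t x)) t) :
    ∀ t ∈ Ioo (-T) T, ∀ x, HasFDerivAt (fun z : ℝ × E => φ z.1 z.2)
      ((ContinuousLinearMap.toSpanSingleton ℝ (u (t, φ t x))).comp (ContinuousLinearMap.fst ℝ ℝ E) +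
        (A t x).comp (ContinuousLinearMap.snd ℝ ℝ E)) (t, x) := by
  obtain ⟨K, hK1, hlip, hbd, hdb, htay⟩ := c1_const hu hus
  have hK0 : 0 ≤ K := by linarith
  have hlipx : ∀ t (x y : E), ‖u (t, x) - u (t, y)‖ ≤ K * ‖x - y‖ := by
    intro t x y
    have := hlip (t, x) (t, y)
    rwa [Prod.mk_sub_mk, sub_self, Prod.norm_mk, norm_zero, max_eq_right (norm_nonneg _)] at this
  intro t ht x
  set M : ℝ := Real.exp (K * |t|) with hM
  have hT : 0 < T := by
    have := ht.1.trans ht.2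
    linarith
  -- Lipschitz dependence on the initial value
  have hflip : ∀ s, s ∈ Ioo (-T) T → |s| ≤ |t| → ∀ h : E, ‖φ s (x + h) - φ s x‖ ≤ M * ‖h‖ := by
    intro s hs hst h
    have h1 := c1_gron (f := fun τ => φ τ (x + h) - φ τ x)
      (f' := fun τ => u (τ, φ τ (x + h)) - u (τ, φ τ x)) (K := K) (ε := 0) (T := T) hK1 le_rfl
      (fun τ _ => (hφ.deriv τ (x + h)).sub (hφ.deriv τ x))
      (fun τ _ => by rw [add_zero]; exact hlipx _ _ _) hs
    simp only [hφ.zero, add_zero, add_sub_cancel_left] at h1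
    have h2 : Real.exp (K * |s|) ≤ M := by
      rw [hM]
      apply Real.exp_le_exp.2
      gcongr
    calc ‖φ s (x + h) - φ s x‖ ≤ ‖h‖ * Real.exp (K * |s|) := h1
      _ ≤ ‖h‖ * M := by gcongr
      _ = M * ‖h‖ := mul_comm _ _
  -- the error term
  have herr : ∀ h : E, ‖φ t (x + h) - φ t x - A t x h‖ ≤ K * M ^ 3 * ‖h‖ ^ 2 := by
    intro h
    have hd : ∀ τ ∈ Ioo (-T) T, HasDerivAt (fun τ => φ τ (x + h) - φ τ x - A τ x h)
        (u (τ, φ τ (x + h)) - u (τ, φ τ x) -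
          (fderiv ℝ (fun y => u (τ, y)) (φ τ x)) (A τ x h)) τ := by
      intro τ hτ
      have h1 : HasDerivAt (fun τ => A τ x h)
          ((fderiv ℝ (fun y => u (τ, y)) (φ τ x)) (A τ x h)) τ := by
        have := (hA τ hτ x).clm_apply (hasDerivAt_const τ h)
        simpa using this
      exact ((hφ.deriv τ (x + h)).sub (hφ.deriv τ x)).sub h1
    have hMt : ∀ τ ∈ Ioo (-T) T, ‖φ τ (x + h) - φ τ x‖ ≤ Real.exp (K * |τ|) * ‖h‖ := by
      intro s hs
      have h1 := c1_gron (f := fun τ => φ τ (x + h) - φ τ x)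
        (f' := fun τ => u (τ, φ τ (x + h)) - u (τ, φ τ x)) (K := K) (ε := 0) (T := T) hK1 le_rfl
        (fun τ _ => (hφ.deriv τ (x + h)).sub (hφ.deriv τ x))
        (fun τ _ => by rw [add_zero]; exact hlipx _ _ _) hs
      simp only [hφ.zero, add_zero, add_sub_cancel_left] at h1
      linarith
    -- work on a smaller interval
    have main : ∀ T' , |t| < T' → T' ≤ T → ‖φ t (x + h) - φ t x - A t x h‖ ≤
        K * (Real.exp (K * T') * ‖h‖) ^ 2 * M := by
      intro T' h1 h2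
      have hsub : Ioo (-T') T' ⊆ Ioo (-T) T := Ioo_subset_Ioo (by linarith) h2
      have h3 := c1_gron (f := fun τ => φ τ (x + h) - φ τ x - A τ x h)
        (f' := fun τ => u (τ, φ τ (x + h)) - u (τ, φ τ x) -
          (fderiv ℝ (fun y => u (τ, y)) (φ τ x)) (A τ x h)) (K := K)
        (ε := K * (Real.exp (K * T') * ‖h‖) ^ 2) (T := T') hK1 (by positivity)
        (fun τ hτ => hd τ (hsub hτ)) (fun τ hτ => ?_) (abs_lt.1 h1 : t ∈ Ioo (-T') T')
      · simpa [hφ.zero, hA0] using h3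
      · have h4 := htay τ (φ τ x) (φ τ (x + h))
        have h5 : u (τ, φ τ (x + h)) - u (τ, φ τ x) -
            (fderiv ℝ (fun y => u (τ, y)) (φ τ x)) (A τ x h) =
            (u (τ, φ τ (x + h)) - u (τ, φ τ x) -
              (fderiv ℝ (fun y => u (τ, y)) (φ τ x)) (φ τ (x + h) - φ τ x)) +
            (fderiv ℝ (fun y => u (τ, y)) (φ τ x)) (φ τ (x + h) - φ τ x - A τ x h) := by
          rw [map_sub _ (φ τ (x + h) - φ τ x) (A τ x h)]
          abel
        have h6 : ‖φ τ (x + h) - φ τ x‖ ≤ Real.exp (K * T') * ‖h‖ := by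
          refine (hMt τ (hsub hτ)).trans ?_
          have : |τ| ≤ T' := (abs_lt.2 hτ).le
          gcongr
        calc ‖u (τ, φ τ (x + h)) - u (τ, φ τ x) -
              (fderiv ℝ (fun y => u (τ, y)) (φ τ x)) (A τ x h)‖
            ≤ K * ‖φ τ (x + h) - φ τ x‖ ^ 2 +
                ‖fderiv ℝ (fun y => u (τ, y)) (φ τ x)‖ * ‖φ τ (x + h) - φ τ x - A τ x h‖ := by
              rw [h5]
              refine (norm_add_le _ _).trans (add_le_add h4 ?_)
              exact ContinuousLinearMap.le_opNorm _ _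
          _ ≤ K * (Real.exp (K * T') * ‖h‖) ^ 2 + K * ‖φ τ (x + h) - φ τ x - A τ x h‖ := by
              gcongr
              exact hdb _ _
          _ = K * ‖φ τ (x + h) - φ τ x - A τ x h‖ + K * (Real.exp (K * T') * ‖h‖) ^ 2 := by ring
    -- let `T'` tend to `|t|`
    have hlim : Tendsto (fun T' : ℝ => K * (Real.exp (K * T') * ‖h‖) ^ 2 * M) (𝓝[>] |t|)
        (𝓝 (K * (Real.exp (K * |t|) * ‖h‖) ^ 2 * M)) := by
      have hc : Continuous (fun T' : ℝ => K * (Real.exp (K * T') * ‖h‖) ^ 2 * M) := by fun_prop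
      exact (hc.tendsto |t|).mono_left nhdsWithin_le_nhds
    have hle := ge_of_tendsto hlim (b := ‖φ t (x + h) - φ t x - A t x h‖) ?_
    · calc _ ≤ K * (Real.exp (K * |t|) * ‖h‖) ^ 2 * M := hle
        _ = K * M ^ 3 * ‖h‖ ^ 2 := by rw [← hM]; ring
    · have h1 : Ioo |t| T ∈ 𝓝[>] |t| := Ioo_mem_nhdsGT (abs_lt.2 ht)
      filter_upwards [h1] with T' hT'
      exact main T' hT'.1 hT'.2.le
  -- the increment in time
  have htime : ∀ (τ : ℝ) (h : E), ‖φ (t + τ) (x + h) - φ t (x + h) - τ • u (t, φ t x)‖ ≤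
      K * (1 + K + M) * (|τ| + ‖h‖) * |τ| := by
    intro τ h
    have hspeed : ∀ σ : ℝ, ‖φ (t + σ) (x + h) - φ t (x + h)‖ ≤ K * |σ| := by
      intro σ
      have h1 := Convex.norm_image_sub_le_of_norm_hasDerivWithin_le (𝕜 := ℝ)
        (f := fun s => φ s (x + h)) (f' := fun s => u (s, φ s (x + h))) (C := K) (s := univ)
        (x := t) (y := t + σ) (fun s _ => (hφ.deriv s (x + h)).hasDerivWithinAt)
        (fun s _ => hbd _) convex_univ (mem_univ _) (mem_univ _)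
      simpa [Real.norm_eq_abs] using h1
    have h1 := Convex.norm_image_sub_le_of_norm_hasDerivWithin_le (𝕜 := ℝ)
      (f := fun σ : ℝ => φ (t + σ) (x + h) - σ • u (t, φ t x))
      (f' := fun σ => u (t + σ, φ (t + σ) (x + h)) - u (t, φ t x))
      (C := K * (1 + K + M) * (|τ| + ‖h‖)) (s := closedBall (0 : ℝ) |τ|)
      (x := 0) (y := τ) (fun σ _ => ?_) (fun σ hσ => ?_) (convex_closedBall _ _)
      (mem_closedBall_self (abs_nonneg _)) (by simp)
    · simp only [add_zero, zero_smul, sub_zero, Real.norm_eq_abs] at h1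
      calc ‖φ (t + τ) (x + h) - φ t (x + h) - τ • u (t, φ t x)‖
          = ‖φ (t + τ) (x + h) - τ • u (t, φ t x) - φ t (x + h)‖ := by
            congr 1
            abel
        _ ≤ _ := h1
    · have h2 : HasDerivAt (fun σ : ℝ => φ (t + σ) (x + h)) (u (t + σ, φ (t + σ) (x + h))) σ := by
        have := (hφ.deriv (t + σ) (x + h)).comp_const_add t σ
        exact this
      have h3 : HasDerivAt (fun σ : ℝ => σ • u (t, φ t x)) (u (t, φ t x)) σ := by
        have := (hasDerivAt_id σ).smul_const (u (t, φ t x))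
        simpa using this
      exact (h2.sub h3).hasDerivWithinAt
    · rw [mem_closedBall, Real.dist_eq, sub_zero] at hσ
      have h2 := hlip (t + σ, φ (t + σ) (x + h)) (t, φ t x)
      refine h2.trans ?_
      rw [mul_assoc]
      apply mul_le_mul_of_nonneg_left _ hK0
      rw [Prod.mk_sub_mk, Prod.norm_mk, add_sub_cancel_left]
      have h3 : ‖φ (t + σ) (x + h) - φ t x‖ ≤ K * |σ| + M * ‖h‖ := by
        calc ‖φ (t + σ) (x + h) - φ t x‖
            = ‖(φ (t + σ) (x + h) - φ t (x + h)) + (φ t (x + h) - φ t x)‖ := by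
              congr 1
              abel
          _ ≤ ‖φ (t + σ) (x + h) - φ t (x + h)‖ + ‖φ t (x + h) - φ t x‖ := norm_add_le _ _
          _ ≤ K * |σ| + M * ‖h‖ := add_le_add (hspeed σ) (hflip t ht le_rfl h)
      have hM0 : 0 ≤ M := (Real.exp_pos _).le
      have h4 : K * |σ| ≤ K * |τ| := by gcongr
      have h5 : 0 ≤ ‖h‖ := norm_nonneg _
      have h6 : 0 ≤ |τ| := abs_nonneg _
      rw [Real.norm_eq_abs]
      apply max_le
      · nlinarith [mul_nonneg hK0 h6, mul_nonneg hM0 h6, mul_nonneg hK0 h5, mul_nonneg hM0 h5]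
      · nlinarith [mul_nonneg hK0 h6, mul_nonneg hM0 h6, mul_nonneg hK0 h5, mul_nonneg hM0 h5]
  -- conclusion
  rw [hasFDerivAt_iff_isLittleO_nhds_zero]
  refine IsBigO.trans_isLittleO (g := fun z : ℝ × E => ‖z‖ ^ 2) ?_
    (isLittleO_norm_pow_id one_lt_two)
  apply IsBigO.of_bound (2 * (K * (1 + K + M)) + K * M ^ 3)
  filter_upwards with z
  obtain ⟨τ, h⟩ := z
  have h1 := htime τ h
  have h2 := herr h
  have hτ : |τ| ≤ ‖((τ, h) : ℝ × E)‖ := by
    rw [← Real.norm_eq_abs]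
    exact norm_fst_le ((τ, h) : ℝ × E)
  have hh : ‖h‖ ≤ ‖((τ, h) : ℝ × E)‖ := norm_snd_le ((τ, h) : ℝ × E)
  set N : ℝ := ‖((τ, h) : ℝ × E)‖ with hN
  have hN0 : 0 ≤ N := norm_nonneg _
  have hM0 : 0 ≤ M := (Real.exp_pos _).le
  have e : φ ((t, x) + (τ, h) : ℝ × E).1 ((t, x) + (τ, h) : ℝ × E).2 - φ (t, x).1 (t, x).2 -
      (((ContinuousLinearMap.toSpanSingleton ℝ (u (t, φ t x))).comp
        (ContinuousLinearMap.fst ℝ ℝ E) + (A t x).comp (ContinuousLinearMap.snd ℝ ℝ E)) (τ, h)) =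
      (φ (t + τ) (x + h) - φ t (x + h) - τ • u (t, φ t x)) +
        (φ t (x + h) - φ t x - A t x h) := by
    simp only [Prod.mk_add_mk, add_apply, ContinuousLinearMap.coe_comp,
      Function.comp_apply, ContinuousLinearMap.coe_fst', ContinuousLinearMap.coe_snd',
      ContinuousLinearMap.toSpanSingleton_apply]
    abel
  rw [e, Real.norm_of_nonneg (by positivity : (0 : ℝ) ≤ N ^ 2)]
  have h3 : K * (1 + K + M) * (|τ| + ‖h‖) * |τ| ≤ K * (1 + K + M) * (N + N) * N := by gcongr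
  have h4 : K * M ^ 3 * ‖h‖ ^ 2 ≤ K * M ^ 3 * N ^ 2 := by gcongr
  calc _ ≤ ‖φ (t + τ) (x + h) - φ t (x + h) - τ • u (t, φ t x)‖ +
        ‖φ t (x + h) - φ t x - A t x h‖ := norm_add_le _ _
    _ ≤ K * (1 + K + M) * (N + N) * N + K * M ^ 3 * N ^ 2 := by linarith
    _ = (2 * (K * (1 + K + M)) + K * M ^ 3) * N ^ 2 := by ring

end SFl
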