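import Pool.Agent.SFl.Exi
import Pool.Agent.SFl.C1

/-!
# Smooth flows, FL-3: smoothness of the flow of a compactly supported smooth field
-/

set_option autoImplicit false
set_option linter.all false

open Set
open scoped ContDiff Topology

namespace SFl

variable {E : Type} [NormedAddCommGroup E] [NormedSpace ℝ E] [FiniteDimensional ℝ E]

/-- the derivative in the space variable -/
private theorem fderiv_slice {u : ℝ × E → E} (hu : ContDiff ℝ ∞ u) (t : ℝ) (x : E) :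
    fderiv ℝ (fun y => u (t, y)) x =
      (fderiv ℝ u (t, x)).comp (ContinuousLinearMap.inr ℝ ℝ E) := by
  have h1 : HasFDerivAt u (fderiv ℝ u (t, x)) (t, x) :=
    (hu.differentiable (by simp) (t, x)).hasFDerivAt
  have h2 : HasFDerivAt (fun y : E => (t, y)) (ContinuousLinearMap.inr ℝ ℝ E) x :=
    hasFDerivAt_prodMk_right t x
  exact (h1.comp x h2).fderiv

/-- Gronwall for a linear bound, forward in time -/
private theorem gron_fwd {F : Type} [NormedAddCommGroup F] [NormedSpace ℝ F] {B B' : ℝ → F} {L : ℝ}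
    (hB : ∀ t, HasDerivAt B (B' t) t) (hb : ∀ t, ‖B' t‖ ≤ L * ‖B t‖) (h0 : ‖B 0‖ ≤ 1) {t : ℝ}
    (ht : 0 ≤ t) : ‖B t‖ ≤ Real.exp (L * t) := by
  have h := norm_le_gronwallBound_of_norm_deriv_right_le (f := B) (f' := B') (δ := 1) (K := L)
    (ε := 0) (a := 0) (b := t) (fun s _ => (hB s).continuousAt.continuousWithinAt)
    (fun s _ => (hB s).hasDerivWithinAt) h0 (fun s _ => by simpa using hb s) t ⟨ht, le_refl t⟩
  rwa [gronwallBound_ε0, sub_zero, one_mul] at h

/-- Gronwall for a linear bound -/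
private theorem gron_abs {F : Type} [NormedAddCommGroup F] [NormedSpace ℝ F] {B B' : ℝ → F} {L : ℝ}
    (hB : ∀ t, HasDerivAt B (B' t) t) (hb : ∀ t, ‖B' t‖ ≤ L * ‖B t‖) (h0 : ‖B 0‖ ≤ 1) (t : ℝ) :
    ‖B t‖ ≤ Real.exp (L * |t|) := by
  rcases le_total 0 t with ht | ht
  · rw [abs_of_nonneg ht]
    exact gron_fwd hB hb h0 ht
  · rw [abs_of_nonpos ht]
    have h1 : ∀ s, HasDerivAt (fun s => B (-s)) (-(B' (-s))) s := fun s => by
      have := (hB (-s)).scomp s (hasDerivAt_neg s)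
      simpa [Function.comp_def] using this
    have h2 := gron_fwd (B := fun s => B (-s)) (B' := fun s => -(B' (-s))) (L := L) h1
      (fun s => by simpa using hb (-s)) (by simpa using h0) (t := -t) (by linarith)
    simpa using h2

/-- the extended field -/
private theorem exists_ext {u : ℝ × E → E} (hu : ContDiff ℝ ∞ u) (hus : HasCompactSupport u)
    (R : ℝ) (hR : 0 < R) :
    ∃ (χ : (E →L[ℝ] E) → ℝ) (w : ℝ × (E × (E →L[ℝ] E)) → E × (E →L[ℝ] E)),
      ContDiff ℝ ∞ w ∧ HasCompactSupport w ∧ (∀ B, ‖B‖ ≤ R → χ B = 1) ∧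
      (∀ B, 0 ≤ χ B ∧ χ B ≤ 1) ∧
      ∀ t x B, w (t, (x, B)) =
        χ B • (u (t, x), (fderiv ℝ (fun y => u (t, y)) x).comp B) := by
  let f : ContDiffBump (0 : E →L[ℝ] E) := ⟨R, R + 1, hR, by linarith⟩
  have hD : ContDiff ℝ ∞ (fun z : ℝ × E =>
      (fderiv ℝ u z).comp (ContinuousLinearMap.inr ℝ ℝ E)) :=
    (hu.fderiv_right (m := ∞) (by simp)).clm_comp contDiff_const
  refine ⟨fun B => f B, fun z => f z.2.2 • (u (z.1, z.2.1),
    ((fderiv ℝ u (z.1, z.2.1)).comp (ContinuousLinearMap.inr ℝ ℝ E)).comp z.2.2), ?_, ?_, ?_, ?_,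
    ?_⟩
  · have h1 : ContDiff ℝ ∞ fun z : ℝ × (E × (E →L[ℝ] E)) => (z.1, z.2.1) :=
      contDiff_fst.prodMk (contDiff_fst.comp contDiff_snd)
    have h2 : ContDiff ℝ ∞ fun z : ℝ × (E × (E →L[ℝ] E)) => z.2.2 :=
      contDiff_snd.comp contDiff_snd
    exact (f.contDiff.comp h2).smul ((hu.comp h1).prodMk ((hD.comp h1).clm_comp h2))
  · have hK : IsCompact ((fun p : (ℝ × E) × (E →L[ℝ] E) => (p.1.1, (p.1.2, p.2))) ''
        (tsupport u ×ˢ Metric.closedBall 0 (R + 1))) := by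
      refine (hus.isCompact.prod (isCompact_closedBall 0 (R + 1))).image ?_
      fun_prop
    refine HasCompactSupport.intro hK fun z hz => ?_
    obtain ⟨t, x, B⟩ := z
    by_cases h1 : (t, x) ∈ tsupport u
    · by_cases h2 : B ∈ Metric.closedBall (0 : E →L[ℝ] E) (R + 1)
      · exact absurd ⟨((t, x), B), ⟨h1, h2⟩, rfl⟩ hz
      · have h3 : f B = 0 := by
          apply f.zero_of_le_dist
          rw [Metric.mem_closedBall, not_le] at h2
          exact h2.le
        simp only [h3, zero_smul]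
    · have h3 : u (t, x) = 0 := image_eq_zero_of_notMem_tsupport h1
      have h4 : fderiv ℝ u (t, x) = 0 := by
        by_contra h5
        exact h1 (support_fderiv_subset ℝ h5)
      simp [h3, h4]
  · intro B hB
    apply f.one_of_mem_closedBall
    rwa [mem_closedBall_zero_iff]
  · exact fun B => ⟨f.nonneg, f.le_one⟩
  · intro t x B
    simp only [fderiv_slice hu]

/-- the derivative of the flow as part of a flow of the same kind -/
private theorem exists_deriv {u : ℝ × E → E} (hu : ContDiff ℝ ∞ u) (hus : HasCompactSupport u)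
    {φ : ℝ → E → E} (hφ : IsFlow u φ) (T : ℝ) :
    ∃ (w : ℝ × (E × (E →L[ℝ] E)) → E × (E →L[ℝ] E))
      (Φ : ℝ → E × (E →L[ℝ] E) → E × (E →L[ℝ] E)),
      ContDiff ℝ ∞ w ∧ HasCompactSupport w ∧ IsFlow w Φ ∧
      (∀ t ∈ Ioo (-T) T, ∀ x, (Φ t (x, ContinuousLinearMap.id ℝ E)).1 = φ t x) ∧
      ∀ t ∈ Ioo (-T) T, ∀ x, HasFDerivAt (fun z : ℝ × E => φ z.1 z.2)
        ((ContinuousLinearMap.toSpanSingleton ℝ (u (t, φ t x))).comp
          (ContinuousLinearMap.fst ℝ ℝ E) +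
        ((Φ t (x, ContinuousLinearMap.id ℝ E)).2).comp (ContinuousLinearMap.snd ℝ ℝ E))
          (t, x) := by
  have lip : ∀ {G : Type} [NormedAddCommGroup G] [NormedSpace ℝ G] [FiniteDimensional ℝ G]
      {v : ℝ × G → G}, ContDiff ℝ ∞ v → HasCompactSupport v →
      ∃ L : ℝ, ∀ t x y, ‖v (t, x) - v (t, y)‖ ≤ L * ‖x - y‖ := by
    intro G _ _ _ v hv hvs
    obtain ⟨C, hC⟩ := ContDiff.lipschitzWith_of_hasCompactSupport hvs hv (by simp)
    refine ⟨C, fun t x y => ?_⟩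
    have h := hC.norm_sub_le (t, x) (t, y)
    simpa [Prod.norm_mk] using h
  obtain ⟨L, hL⟩ := lip hu hus
  -- the bound of the derivative
  obtain ⟨L', hL'⟩ : ∃ L' : ℝ, ∀ t x, ‖fderiv ℝ (fun y => u (t, y)) x‖ ≤ L' := by
    have hD : ContDiff ℝ ∞ (fun z : ℝ × E => fderiv ℝ u z) := hu.fderiv_right (m := ∞) (by simp)
    obtain ⟨C, hC⟩ := (hus.fderiv ℝ).exists_bound_of_continuous hD.continuous
    refine ⟨C * ‖ContinuousLinearMap.inr ℝ ℝ E‖, fun t x => ?_⟩
    rw [fderiv_slice hu]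
    exact (ContinuousLinearMap.opNorm_comp_le _ _).trans
      (mul_le_mul_of_nonneg_right (hC _) (norm_nonneg _))
  have hL'0 : 0 ≤ L' := (norm_nonneg _).trans (hL' 0 0)
  obtain ⟨χ, w, hw, hws, hχ1, hχ, hwe⟩ := exists_ext hu hus (Real.exp (L' * |T|)) (Real.exp_pos _)
  obtain ⟨Lw, hLw⟩ := lip hw hws
  obtain ⟨M, hM⟩ := hws.exists_bound_of_continuous hw.continuous
  obtain ⟨Φ, hΦ⟩ := exists_flow hw.continuous hLw hM
  -- the two components
  have hder : ∀ t x, HasDerivAt (fun τ => Φ τ (x, ContinuousLinearMap.id ℝ E))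
      (χ (Φ t (x, ContinuousLinearMap.id ℝ E)).2 •
        (u (t, (Φ t (x, ContinuousLinearMap.id ℝ E)).1),
          (fderiv ℝ (fun y => u (t, y)) (Φ t (x, ContinuousLinearMap.id ℝ E)).1).comp
            (Φ t (x, ContinuousLinearMap.id ℝ E)).2)) t := fun t x => by
    have := hΦ.deriv t (x, ContinuousLinearMap.id ℝ E)
    rwa [← Prod.mk.eta (p := Φ t (x, ContinuousLinearMap.id ℝ E)), hwe] at this
  have hd1 : ∀ t x, HasDerivAt (fun τ => (Φ τ (x, ContinuousLinearMap.id ℝ E)).1)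
      (χ (Φ t (x, ContinuousLinearMap.id ℝ E)).2 •
        u (t, (Φ t (x, ContinuousLinearMap.id ℝ E)).1)) t := fun t x =>
    ((ContinuousLinearMap.fst ℝ E (E →L[ℝ] E)).hasFDerivAt.comp_hasDerivAt t (hder t x))
  have hd2 : ∀ t x, HasDerivAt (fun τ => (Φ τ (x, ContinuousLinearMap.id ℝ E)).2)
      (χ (Φ t (x, ContinuousLinearMap.id ℝ E)).2 •
        (fderiv ℝ (fun y => u (t, y)) (Φ t (x, ContinuousLinearMap.id ℝ E)).1).comp
            (Φ t (x, ContinuousLinearMap.id ℝ E)).2) t := fun t x =>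
    ((ContinuousLinearMap.snd ℝ E (E →L[ℝ] E)).hasFDerivAt.comp_hasDerivAt t (hder t x))
  have hB : ∀ t x, ‖(Φ t (x, ContinuousLinearMap.id ℝ E)).2‖ ≤ Real.exp (L' * |t|) := by
    intro t x
    refine gron_abs (fun s => hd2 s x) (fun s => ?_) ?_ t
    · rw [norm_smul, Real.norm_eq_abs, abs_of_nonneg (hχ _).1]
      calc _ ≤ 1 * ‖(fderiv ℝ (fun y => u (s, y))
            (Φ s (x, ContinuousLinearMap.id ℝ E)).1).comp
            (Φ s (x, ContinuousLinearMap.id ℝ E)).2‖ :=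
          mul_le_mul_of_nonneg_right (hχ _).2 (norm_nonneg _)
        _ ≤ _ := by
          rw [one_mul]
          exact (ContinuousLinearMap.opNorm_comp_le _ _).trans
            (mul_le_mul_of_nonneg_right (hL' _ _) (norm_nonneg _))
    · rw [hΦ.zero]
      exact ContinuousLinearMap.norm_id_le
  have hone : ∀ t ∈ Ioo (-T) T, ∀ x, χ (Φ t (x, ContinuousLinearMap.id ℝ E)).2 = 1 := by
    intro t ht x
    apply hχ1
    refine (hB t x).trans (Real.exp_le_exp.2 ?_)
    have h1 : |t| ≤ |T| := by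
      rw [abs_le]
      exact ⟨by linarith [ht.1, le_abs_self T], by linarith [ht.2, le_abs_self T]⟩
    exact mul_le_mul_of_nonneg_left h1 hL'0
  have heq : ∀ t ∈ Ioo (-T) T, ∀ x, (Φ t (x, ContinuousLinearMap.id ℝ E)).1 = φ t x := by
    intro t ht x
    refine curve_unique (T := T) hL (γ := fun τ => (Φ τ (x, ContinuousLinearMap.id ℝ E)).1)
      (γ' := fun τ => φ τ x) ?_ (fun s hs => ?_) (fun s _ => hφ.deriv s x) t ht
    · simp only [hΦ.zero, hφ.zero]
    · have := hd1 s x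
      rwa [hone s hs x, one_smul] at this
  refine ⟨w, Φ, hw, hws, hΦ, heq, flow_hasFDerivAt hu hus hφ
    (A := fun t x => (Φ t (x, ContinuousLinearMap.id ℝ E)).2) (fun x => by simp [hΦ.zero])
    (fun t ht x => ?_)⟩
  have := hd2 t x
  rwa [hone t ht x, one_smul, heq t ht x] at this

/-- the induction -/
private theorem contDiff_nat (k : ℕ) : ∀ (E : Type) [NormedAddCommGroup E] [NormedSpace ℝ E]
    [FiniteDimensional ℝ E] (u : ℝ × E → E), ContDiff ℝ ∞ u → HasCompactSupport u →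
    ∀ φ : ℝ → E → E, IsFlow u φ → ContDiff ℝ k (fun z : ℝ × E => φ z.1 z.2) := by
  induction k with
  | zero =>
    intro E _ _ _ u hu hus φ hφ
    rw [Nat.cast_zero, contDiff_zero, continuous_iff_continuousAt]
    rintro ⟨t, x⟩
    obtain ⟨w, Φ, -, -, -, -, h⟩ := exists_deriv hu hus hφ (|t| + 1)
    have ht : t ∈ Ioo (-(|t| + 1)) (|t| + 1) :=
      ⟨by linarith [neg_abs_le t], by linarith [le_abs_self t]⟩
    exact (h t ht x).continuousAt
  | succ k ih =>
    intro E _ _ _ u hu hus φ hφ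
    rw [contDiff_iff_contDiffAt]
    rintro ⟨t, x⟩
    obtain ⟨w, Φ, hw, hws, hΦ, heq, h⟩ := exists_deriv hu hus hφ (|t| + 1)
    have ht : t ∈ Ioo (-(|t| + 1)) (|t| + 1) :=
      ⟨by linarith [neg_abs_le t], by linarith [le_abs_self t]⟩
    have hP := ih _ w hw hws Φ hΦ
    have hi : ContDiff ℝ k fun z : ℝ × E =>
        ((z.1, (z.2, ContinuousLinearMap.id ℝ E)) : ℝ × (E × (E →L[ℝ] E))) :=
      contDiff_fst.prodMk (contDiff_snd.prodMk contDiff_const)
    have hP' : ContDiff ℝ k fun z : ℝ × E => Φ z.1 (z.2, ContinuousLinearMap.id ℝ E) :=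
      hP.comp hi
    have hnhds : Ioo (-(|t| + 1)) (|t| + 1) ×ˢ (univ : Set E) ∈ 𝓝 (t, x) :=
      prod_mem_nhds (Ioo_mem_nhds ht.1 ht.2) Filter.univ_mem
    rw [Nat.cast_succ, contDiffAt_succ_iff_hasFDerivAt]
    refine ⟨fun z => (ContinuousLinearMap.toSpanSingleton ℝ (u (z.1, φ z.1 z.2))).comp
          (ContinuousLinearMap.fst ℝ ℝ E) +
        ((Φ z.1 (z.2, ContinuousLinearMap.id ℝ E)).2).comp (ContinuousLinearMap.snd ℝ ℝ E),
      ⟨_, hnhds, fun z hz => h z.1 hz.1 z.2⟩, ?_⟩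
    have hu1 : ContDiffAt ℝ k (fun z : ℝ × E => u (z.1, φ z.1 z.2)) (t, x) := by
      have h1 : ContDiff ℝ k fun z : ℝ × E =>
          u (z.1, (Φ z.1 (z.2, ContinuousLinearMap.id ℝ E)).1) :=
        (hu.of_le (by exact_mod_cast le_top)).comp
          (contDiff_fst.prodMk (contDiff_fst.comp hP'))
      refine h1.contDiffAt.congr_of_eventuallyEq ?_
      filter_upwards [hnhds] with z hz
      rw [heq z.1 hz.1 z.2]
    have hu2 : ContDiffAt ℝ k (fun z : ℝ × E =>
        ContinuousLinearMap.toSpanSingleton ℝ (u (z.1, φ z.1 z.2))) (t, x) :=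
      (ContinuousLinearMap.toSpanSingletonCLE (𝕜 := ℝ) (E := E)).toContinuousLinearMap.contDiff.contDiffAt.comp
        (t, x) hu1
    exact (hu2.clm_comp contDiffAt_const).add
      ((contDiff_snd.comp hP').contDiffAt.clm_comp contDiffAt_const)

theorem flow_contDiff_cs {u : ℝ × E → E} (hu : ContDiff ℝ ∞ u) (hus : HasCompactSupport u)
    {φ : ℝ → E → E} (hφ : IsFlow u φ) : ContDiff ℝ ∞ (fun z : ℝ × E => φ z.1 z.2) :=
  contDiff_infty.2 fun k => contDiff_nat k E u hu hus φ hφ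

end SFl
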