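import Mathlib

/-!
# Smooth flows of time dependent smooth vector fields: definitions
-/

set_option autoImplicit false

open Set
open scoped ContDiff

namespace SFl

/-- `φ` is the flow, from time zero, of the time dependent field `u`. -/
structure IsFlow {E : Type} [NormedAddCommGroup E] [NormedSpace ℝ E] (u : ℝ × E → E)
    (φ : ℝ → E → E) : Prop where
  zero : ∀ x, φ 0 x = x
  deriv : ∀ t x, HasDerivAt (fun τ => φ τ x) (u (t, φ t x)) t

end SFl
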