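import Pool.Agent.SFl.Defs

/-!
# Existence, uniqueness and Lipschitz dependence of flows (FL-1)
-/

set_option autoImplicit false

open Set Filter Topology
open scoped ContDiff NNReal

namespace SFl

variable {E : Type} [NormedAddCommGroup E] [NormedSpace ℝ E]

omit [NormedSpace ℝ E] in
theorem exi_lip {u : ℝ × E → E} {L : ℝ}
    (hL : ∀ t x y, ‖u (t, x) - u (t, y)‖ ≤ L * ‖x - y‖) (t : ℝ) :
    LipschitzWith L.toNNReal (fun x => u (t, x)) := by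
  refine LipschitzWith.of_dist_le_mul fun x y => ?_
  rw [dist_eq_norm, dist_eq_norm]
  refine (hL t x y).trans (mul_le_mul_of_nonneg_right ?_ (norm_nonneg _))
  exact Real.le_coe_toNNReal L

/-- two integral curves on an interval around zero which agree at zero agree -/
theorem curve_unique {u : ℝ × E → E} {L T : ℝ}
    (hL : ∀ t x y, ‖u (t, x) - u (t, y)‖ ≤ L * ‖x - y‖) {γ γ' : ℝ → E} (h0 : γ 0 = γ' 0)
    (hγ : ∀ t ∈ Ioo (-T) T, HasDerivAt γ (u (t, γ t)) t)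
    (hγ' : ∀ t ∈ Ioo (-T) T, HasDerivAt γ' (u (t, γ' t)) t) : ∀ t ∈ Ioo (-T) T, γ t = γ' t := by
  intro t ht
  have hT : 0 < T := by
    have := ht.1.trans ht.2
    linarith
  have h1 := ODE_solution_unique_of_mem_Ioo (v := fun t x => u (t, x)) (s := fun _ => univ)
    (K := L.toNNReal) (f := γ) (g := γ') (a := -T) (b := T) (t₀ := 0)
    (fun t _ => (exi_lip hL t).lipschitzOnWith) ⟨by linarith, hT⟩
    (fun t ht => ⟨hγ t ht, trivial⟩) (fun t ht => ⟨hγ' t ht, trivial⟩) h0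
  exact h1 ht

theorem exi_lip_pos {u : ℝ × E → E} {L : ℝ} (hL0 : 0 ≤ L)
    (hL : ∀ t x y, ‖u (t, x) - u (t, y)‖ ≤ L * ‖x - y‖) {γ γ' : ℝ → E}
    (hγ : ∀ t, HasDerivAt γ (u (t, γ t)) t) (hγ' : ∀ t, HasDerivAt γ' (u (t, γ' t)) t)
    {t : ℝ} (ht : 0 ≤ t) : ‖γ t - γ' t‖ ≤ Real.exp (L * t) * ‖γ 0 - γ' 0‖ := by
  have h1 := dist_le_of_trajectories_ODE (v := fun t x => u (t, x)) (K := L.toNNReal) (f := γ)
    (g := γ') (a := 0) (b := t) (δ := dist (γ 0) (γ' 0)) (fun t => exi_lip hL t)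
    (fun s _ => (hγ s).continuousAt.continuousWithinAt) (fun s _ => (hγ s).hasDerivWithinAt)
    (fun s _ => (hγ' s).continuousAt.continuousWithinAt) (fun s _ => (hγ' s).hasDerivWithinAt)
    le_rfl t ⟨ht, le_rfl⟩
  rw [dist_eq_norm, dist_eq_norm, sub_zero, Real.coe_toNNReal L hL0] at h1
  rwa [mul_comm]

variable [FiniteDimensional ℝ E]

theorem exi_local {u : ℝ × E → E} {L M : ℝ} (hc : Continuous u)
    (hL : ∀ t x y, ‖u (t, x) - u (t, y)‖ ≤ L * ‖x - y‖) (hM : ∀ z, ‖u z‖ ≤ M) (x : E) (n : ℕ) :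
    ∃ γ : ℝ → E, γ 0 = x ∧ ∀ t ∈ Ioo (-((n : ℝ) + 1)) (n + 1), HasDerivAt γ (u (t, γ t)) t := by
  have : CompleteSpace E := FiniteDimensional.complete ℝ E
  have hn : (0 : ℝ) < n + 1 := by positivity
  have h0 : (0 : ℝ) ∈ Icc (-((n : ℝ) + 1)) (n + 1) := ⟨by linarith, hn.le⟩
  have hP : IsPicardLindelof (fun t y => u (t, y)) (⟨0, h0⟩ : Icc (-((n : ℝ) + 1)) ((n : ℝ) + 1))
      x (M.toNNReal * (n + 1)) 0 M.toNNReal L.toNNReal := by
    refine ⟨fun t _ => (exi_lip hL t).lipschitzOnWith, fun y _ => ?_, fun t _ y _ => ?_, ?_⟩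
    · exact (hc.comp (by fun_prop : Continuous fun t : ℝ => (t, y))).continuousOn
    · exact (hM (t, y)).trans (Real.le_coe_toNNReal M)
    · push_cast
      simp
  obtain ⟨γ, h1, h2⟩ := hP.exists_eq_forall_mem_Icc_hasDerivWithinAt₀
  exact ⟨γ, h1, fun t ht => (h2 t ⟨ht.1.le, ht.2.le⟩).hasDerivAt (Icc_mem_nhds ht.1 ht.2)⟩

theorem exists_flow {u : ℝ × E → E} {L M : ℝ} (hc : Continuous u)
    (hL : ∀ t x y, ‖u (t, x) - u (t, y)‖ ≤ L * ‖x - y‖) (hM : ∀ z, ‖u z‖ ≤ M) :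
    ∃ φ : ℝ → E → E, IsFlow u φ := by
  choose γ hγ0 hγ using exi_local hc hL hM
  refine ⟨fun t x => γ x ⌈|t|⌉₊ t, ⟨fun x => ?_, fun t x => ?_⟩⟩
  · exact hγ0 x _
  · have key : ∀ τ : ℝ, |τ| < |t| + 1 → γ x ⌈|τ|⌉₊ τ = γ x (⌈|t|⌉₊ + 1) τ := by
      intro τ hτ
      have h1 : ⌈|τ|⌉₊ ≤ ⌈|t|⌉₊ + 1 := by
        rw [Nat.ceil_le]
        push_cast
        have := Nat.le_ceil |t|
        linarith
      have h2 : |τ| < (⌈|τ|⌉₊ : ℝ) + 1 := by
        have := Nat.le_ceil |τ|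
        linarith
      have h3 : ((⌈|τ|⌉₊ : ℕ) : ℝ) ≤ ((⌈|t|⌉₊ + 1 : ℕ) : ℝ) := by exact_mod_cast h1
      refine curve_unique hL (T := (⌈|τ|⌉₊ : ℝ) + 1) ?_ (hγ x _) ?_ τ (abs_lt.1 h2)
      · rw [hγ0, hγ0]
      · intro s hs
        exact hγ x _ s ⟨by linarith [hs.1], by linarith [hs.2]⟩
    have h4 : |t| < ((⌈|t|⌉₊ + 1 : ℕ) : ℝ) + 1 := by
      have := Nat.le_ceil |t|
      push_cast
      linarith
    have h5 := hγ x (⌈|t|⌉₊ + 1) t (abs_lt.1 h4)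
    have h6 := key t (by linarith)
    have h7 : (fun τ => γ x ⌈|τ|⌉₊ τ) =ᶠ[𝓝 t] γ x (⌈|t|⌉₊ + 1) := by
      have h8 : ∀ᶠ τ in 𝓝 t, |τ| < |t| + 1 :=
        continuous_abs.continuousAt.eventually_lt continuousAt_const (by linarith)
      filter_upwards [h8] with τ hτ
      exact key τ hτ
    rw [h6]
    exact h5.congr_of_eventuallyEq h7

theorem flow_lip {u : ℝ × E → E} {L : ℝ} (hL0 : 0 ≤ L)
    (hL : ∀ t x y, ‖u (t, x) - u (t, y)‖ ≤ L * ‖x - y‖) {φ : ℝ → E → E} (hφ : IsFlow u φ)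
    (t : ℝ) (x y : E) : ‖φ t x - φ t y‖ ≤ Real.exp (L * |t|) * ‖x - y‖ := by
  rcases le_total 0 t with ht | ht
  · have h1 := exi_lip_pos hL0 hL (γ := fun τ => φ τ x) (γ' := fun τ => φ τ y)
      (fun τ => hφ.deriv τ x) (fun τ => hφ.deriv τ y) ht
    simp only [hφ.zero] at h1
    rwa [abs_of_nonneg ht]
  · have hd : ∀ z, ∀ τ, HasDerivAt (fun τ => φ (-τ) z)
        ((fun p : ℝ × E => -u (-p.1, p.2)) (τ, φ (-τ) z)) τ := by
      intro z τ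
      have h2 : HasDerivAt (fun τ => φ (-τ) z) ((-1 : ℝ) • u (-τ, φ (-τ) z)) τ :=
        (hφ.deriv (-τ) z).scomp τ (hasDerivAt_neg τ)
      simpa using h2
    have h1 := exi_lip_pos (u := fun p : ℝ × E => -u (-p.1, p.2)) hL0
      (fun s x y => by
        have h3 := hL (-s) x y
        rw [← norm_neg] at h3
        rwa [neg_sub_neg, ← neg_sub (u (-s, x))])
      (γ := fun τ => φ (-τ) x) (γ' := fun τ => φ (-τ) y) (hd x) (hd y) (neg_nonneg.2 ht)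
    simp only [neg_neg, neg_zero, hφ.zero] at h1
    rwa [abs_of_nonpos ht]

end SFl
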